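import Mathlib
import Pool.Agent.Results.MP_a0e599_al.Main

/-!
# The conjectured value of `τ_{n,d}` fails for every odd `d > 3`

The forms `form e d c` and the predicate `IsGeneric` are those of the starting file
`Pool.Agent.Results.MP_a0e599_al.Main`:  `form e d c` is the sum of the `c_S x_S` over the sets `S`
with `d` elements, and `IsGeneric d c` says that the `c_S`, `|S| = d`, are pairwise distinct, not
rational, and algebraically independent over `ℚ`.

Since `f ∧ f = 0`, the image of multiplication by `f` on `⋀^(n-2d)` is contained in the proper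
subspace `{u : u ∧ f = 0}` of `⋀^(n-d)`.
-/

set_option autoImplicit false

universe u v

namespace Pool.Agent.Results.MP_071b90_al.OddForms

open Pool.Agent.Results.MP_a0e599_al.Main
open ExteriorAlgebra (exteriorPower)

section defs

variable {K : Type u} {V : Type v} [Field K] [AddCommGroup V] [Module K V]

/-- The coefficient of `t^r` in the Hilbert series of the annihilator `{g : g ∧ f = 0}`. -/
noncomputable def annCoeff (f : ExteriorAlgebra K V) (r : ℕ) : ℤ :=
  Module.finrank K ↥(LinearMap.ker (LinearMap.mulRight K f) ⊓ ⋀[K]^r V)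

/-- The coefficient of `t^r` in the Hilbert series of the principal ideal `(f)`. -/
noncomputable def idealCoeff (f : ExteriorAlgebra K V) (r : ℕ) : ℤ :=
  Module.finrank K ↥((Ideal.span {f}).restrictScalars K ⊓ ⋀[K]^r V)

/-- The coefficient of `t^r` in `Δ_{n,d}`; note `⌈(n-d)/2⌉ = (n - d + 1) / 2` for `n ≥ d`. -/
def deltaCoeff (n d r : ℕ) : ℤ :=
  if (n - d + 1) / 2 ≤ r ∧ r ≤ n then (n.choose r : ℤ) - (n.choose (r + d) : ℤ) else 0

/-- The coefficient of `t^r` in `τ`, for the form `f` of degree `d` in `n` variables. -/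
noncomputable def tauCoeff (n d : ℕ) (f : ExteriorAlgebra K V) (r : ℕ) : ℤ :=
  annCoeff f r - max (idealCoeff f r) (deltaCoeff n d r)

open Classical in
/-- The coefficient of `t^r` in the conjectured value of `τ_{n,d}`. -/
noncomputable def conjCoeff (n d r : ℕ) : ℤ :=
  if ∃ v s : ℕ, 1 ≤ v ∧ 2 * (n - d + 1) = v ^ 2 + 5 * v ∧ d = 5 + 2 * v * s ∧
    2 * r = v * (v + 1) then 1 else 0

end defs

section binomials

lemma choose_mono {n a b : ℕ} (hab : a ≤ b) (hb : 2 * b ≤ n) : n.choose a ≤ n.choose b := by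
  induction b, hab using Nat.le_induction with
  | base => exact le_rfl
  | succ b hb' ih =>
    refine (ih (by omega)).trans ?_
    have h1 := Nat.choose_succ_right_eq n b
    have h2 : b + 1 ≤ n - b := by omega
    have h3 : n.choose b * (b + 1) ≤ n.choose (b + 1) * (b + 1) := by
      rw [h1]; exact Nat.mul_le_mul_left _ h2
    exact Nat.le_of_mul_le_mul_right h3 (by omega)

lemma two_choose {n d : ℕ} (hn : 3 * d + 2 ≤ n) : 2 * n.choose d ≤ n.choose (d + 1) := by
  have h1 := Nat.choose_succ_right_eq n d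
  have h2 : 2 * (d + 1) ≤ n - d := by omega
  have h3 : 2 * n.choose d * (d + 1) ≤ n.choose (d + 1) * (d + 1) := by
    rw [h1, mul_comm 2, mul_assoc]; exact Nat.mul_le_mul_left _ h2
  exact Nat.le_of_mul_le_mul_right h3 (by omega)

lemma ineq {n d : ℕ} (hd : 3 < d) (hn1 : 3 * d + 1 ≤ n) (hn2 : n ≤ 4 * d) :
    n.choose (n - 3 * d) + n.choose d ≤ n.choose (n - 2 * d) := by
  rcases Nat.lt_or_ge n (3 * d + 2) with h | h
  · have hn : n = 3 * d + 1 := by omega
    subst hn
    have e1 : 3 * d + 1 - 3 * d = 1 := by omega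
    have e2 : 3 * d + 1 - 2 * d = d + 1 := by omega
    rw [e1, e2, Nat.choose_one_right]
    have h1 := Nat.choose_succ_right_eq (3 * d + 1) d
    have e3 : 3 * d + 1 - d = 2 * d + 1 := by omega
    rw [e3] at h1
    have h2 : (3 * d + 1).choose 2 ≤ (3 * d + 1).choose d := choose_mono (by omega) (by omega)
    have h3 : (3 * d + 1).choose 2 * 2 = (3 * d + 1) * (3 * d) := by
      have := Nat.choose_succ_right_eq (3 * d + 1) 1
      rw [Nat.choose_one_right] at this
      simpa using this
    have h4 : (3 * d + 1) * (d + 1) ≤ d * (3 * d + 1).choose d := by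
      have h5 : (3 * d + 1) * (d + 1) * 2 ≤ d * (3 * d + 1).choose 2 * 2 := by
        rw [mul_assoc d, h3]
        nlinarith
      have h6 := Nat.le_of_mul_le_mul_right h5 (by norm_num)
      exact h6.trans (Nat.mul_le_mul_left _ h2)
    have h7 : (3 * d + 1 + (3 * d + 1).choose d) * (d + 1) ≤
        (3 * d + 1).choose (d + 1) * (d + 1) := by
      rw [h1]
      nlinarith
    exact Nat.le_of_mul_le_mul_right h7 (by omega)
  · have h1 : n.choose (n - 3 * d) ≤ n.choose d := choose_mono (by omega) (by omega)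
    have h2 := two_choose h
    have h3 : n.choose (d + 1) ≤ n.choose (n - 2 * d) := choose_mono (by omega) (by omega)
    omega

lemma conj_eq_zero {n d : ℕ} (hd : 3 < d) (hn1 : 3 * d + 1 ≤ n) (hne : ¬ (n = 16 ∧ d = 5)) :
    conjCoeff n d (n - 2 * d) = 0 := by
  unfold conjCoeff
  rw [if_neg]
  rintro ⟨v, s, hv, h1, h2, h3⟩
  -- `2 (n - d + 1) - 2 (n - 2 d) = 2 d + 2 = 4 v`
  have h4 : 2 * d + 2 = 4 * v := by
    have e1 : n - d + 1 = (n - 2 * d) + (d + 1) := by omega
    rw [e1] at h1
    nlinarith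
  have h5 : s = 0 := by
    by_contra hs
    have : 2 * v * 1 ≤ 2 * v * s := Nat.mul_le_mul_left _ (by omega)
    omega
  subst h5
  have hd5 : d = 5 := by omega
  subst hd5
  have hv3 : v = 3 := by omega
  subst hv3
  apply hne
  omega

end binomials

section main

variable {K : Type u} {V : Type v} [Field K] [AddCommGroup V] [Module K V] {n : ℕ}
  {e : Module.Basis (Fin n) K V}

lemma idealCoeff_le (e : Module.Basis (Fin n) K V) {f : ExteriorAlgebra K V} {d r : ℕ}
    (hf : f ∈ ⋀[K]^d V) (hr : d ≤ r) : idealCoeff f r ≤ n.choose (r - d) := by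
  have : Module.Finite K V := Module.Finite.of_basis e
  have : Module.Free K V := Module.Free.of_basis e
  have hV : Module.finrank K V = n := by
    rw [Module.finrank_eq_card_basis e, Fintype.card_fin]
  have : Module.Finite K (ExteriorAlgebra K V) := Module.Finite.of_basis (BB e)
  have hle : (Ideal.span {f}).restrictScalars K ⊓ ⋀[K]^r V ≤
      Submodule.map (LinearMap.mulRight K f) (⋀[K]^(r - d) V) := by
    rintro x ⟨hx1, hx2⟩
    obtain ⟨g, rfl⟩ := Ideal.mem_span_singleton'.1 hx1
    have key : (DirectSum.decompose (fun i : ℕ => ⋀[K]^i V) (g * f) r : ExteriorAlgebra K V) =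
        DirectSum.decompose (fun i : ℕ => ⋀[K]^i V) g (r - d) * f :=
      DirectSum.coe_decompose_mul_of_right_mem_of_le (fun i : ℕ => ⋀[K]^i V) hf hr
    rw [DirectSum.decompose_of_mem_same (fun i : ℕ => ⋀[K]^i V) hx2] at key
    exact ⟨DirectSum.decompose (fun i : ℕ => ⋀[K]^i V) g (r - d), SetLike.coe_mem _, key.symm⟩
  have h1 := (Submodule.finrank_mono hle).trans (Submodule.finrank_map_le _ _)
  rw [exteriorPower.finrank_eq, hV] at h1
  unfold idealCoeff
  exact_mod_cast h1

lemma top_ne_zero {d : ℕ} {c : Finset (Fin n) → K} {S₀ : Finset (Fin n)} (hS : S₀.card = d)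
    (hc : c S₀ ≠ 0) : mono e S₀ᶜ * form e d c ≠ 0 := by
  intro h0
  have h1 : dels e (S₀ᶜ.sort (· ≤ ·)) (mono e S₀ᶜ * form e d c) = c S₀ • mono e S₀ := by
    unfold form
    rw [Finset.mul_sum, map_sum]
    rw [Finset.sum_eq_single S₀]
    · rw [mul_smul_comm, map_smul]
      have h2 := dels_lmono_mul_self (isEig_mono (e := e) S₀) (S₀ᶜ.sort (· ≤ ·))
        (Finset.sort_nodup _ _)
      rw [if_pos] at h2
      · unfold mono at h2 ⊢
        rw [h2]
      · intro i hi
        rw [Finset.mem_sort, Finset.mem_compl] at hi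
        exact hi
    · intro S hS' hne
      rw [Finset.mem_powersetCard] at hS'
      rw [mul_smul_comm, map_smul]
      have h2 := dels_lmono_mul_self (isEig_mono (e := e) S) (S₀ᶜ.sort (· ≤ ·))
        (Finset.sort_nodup _ _)
      rw [if_neg] at h2
      · unfold mono at h2 ⊢
        rw [h2, smul_zero]
      · intro hcon
        apply hne
        have hsub : S ⊆ S₀ := by
          intro i hi
          by_contra hi2
          exact hcon i (by rw [Finset.mem_sort, Finset.mem_compl]; exact hi2) hi
        exact Finset.eq_of_subset_of_card_le hsub (by rw [hS, hS'.2])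
    · intro hcon
      exact absurd (Finset.mem_powersetCard.2 ⟨Finset.subset_univ _, hS⟩) hcon
  rw [h0, map_zero] at h1
  have h2 : mono e S₀ ≠ 0 := by
    rw [← BB_apply]; exact (BB e).ne_zero S₀
  exact (smul_ne_zero hc h2) h1.symm

lemma mul_mem' {f x : ExteriorAlgebra K V} {r d : ℕ} (hx : x ∈ ⋀[K]^r V) (hf : f ∈ ⋀[K]^d V) :
    x * f ∈ ⋀[K]^(r + d) V := by
  rw [exteriorPower, pow_add]
  exact Submodule.mul_mem_mul hx hf

lemma annCoeff_ge {d : ℕ} {c : Finset (Fin n) → K} (hsq : form e d c * form e d c = 0)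
    (hn : 2 * d ≤ n) {S₀ : Finset (Fin n)} (hS : S₀.card = d) (hc : c S₀ ≠ 0) :
    (n.choose (n - 2 * d) : ℤ) - n.choose d + 1 ≤ annCoeff (form e d c) (n - 2 * d) := by
  have : Module.Finite K V := Module.Finite.of_basis e
  have : Module.Free K V := Module.Free.of_basis e
  have hV : Module.finrank K V = n := by
    rw [Module.finrank_eq_card_basis e, Fintype.card_fin]
  have : Module.Finite K (ExteriorAlgebra K V) := Module.Finite.of_basis (BB e)
  set f := form e d c with hf
  have hfm : f ∈ ⋀[K]^d V := form_mem (e := e) d c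
  let L : ⋀[K]^(n - 2 * d) V →ₗ[K] ExteriorAlgebra K V :=
    (LinearMap.mulRight K f).domRestrict (⋀[K]^(n - 2 * d) V)
  have h1 := L.finrank_range_add_finrank_ker
  rw [exteriorPower.finrank_eq, hV] at h1
  -- the kernel
  have h2 : Module.finrank K (LinearMap.ker L) =
      Module.finrank K ↥(LinearMap.ker (LinearMap.mulRight K f) ⊓ ⋀[K]^(n - 2 * d) V) := by
    have h3 : (LinearMap.ker L).map (⋀[K]^(n - 2 * d) V).subtype =
        LinearMap.ker (LinearMap.mulRight K f) ⊓ ⋀[K]^(n - 2 * d) V := by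
      ext x
      constructor
      · rintro ⟨⟨y, hy⟩, hy2, rfl⟩
        exact ⟨LinearMap.mem_ker.1 hy2, hy⟩
      · rintro ⟨hx1, hx2⟩
        exact ⟨⟨x, hx2⟩, hx1, rfl⟩
    rw [← h3]
    exact LinearEquiv.finrank_eq (Submodule.equivMapOfInjective _
      (Submodule.injective_subtype _) _)
  -- the range
  have hdeg : n - 2 * d + d = n - d := by omega
  have h4 : LinearMap.range L ≤ LinearMap.ker (LinearMap.mulRight K f) ⊓ ⋀[K]^(n - d) V := by
    rintro _ ⟨x, rfl⟩
    refine ⟨?_, ?_⟩
    · show (x.1 * f) * f = 0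
      rw [mul_assoc, hsq, mul_zero]
    · have := mul_mem' x.2 hfm
      rw [hdeg] at this
      exact this
  have h5 : LinearMap.ker (LinearMap.mulRight K f) ⊓ ⋀[K]^(n - d) V < ⋀[K]^(n - d) V := by
    refine lt_of_le_of_ne inf_le_right ?_
    intro heq
    have hmem : mono e S₀ᶜ ∈ ⋀[K]^(n - d) V := by
      have := mono_mem (e := e) S₀ᶜ
      rwa [Finset.card_compl, hS, Fintype.card_fin] at this
    rw [← heq] at hmem
    exact top_ne_zero (e := e) hS hc hmem.1
  have h6 := Submodule.finrank_lt_finrank_of_lt h5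
  have h7 := Submodule.finrank_mono h4
  rw [exteriorPower.finrank_eq, hV, Nat.choose_symm (by omega : d ≤ n)] at h6
  unfold annCoeff
  rw [← h2]
  omega

end main

/-- **The conjecture fails for every odd `d > 3`.**  Let `d > 3` be odd, `3 d + 1 ≤ n ≤ 4 d` and
`(n, d) ≠ (16, 5)`.  Then for every generic form of degree `d` in `n` variables (and there are
such forms over `ℂ`) the coefficient of `t^(n - 2 d)` in `τ_{n,d}` is at least `1`, but the
coefficient of `t^(n - 2 d)` in the conjectured value is `0`. -/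
theorem result (n d : ℕ) (hodd : Odd d) (hd : 3 < d) (hn1 : 3 * d + 1 ≤ n) (hn2 : n ≤ 4 * d)
    (hne : ¬ (n = 16 ∧ d = 5)) :
    (∃ c : Finset (Fin n) → ℂ, IsGeneric d c) ∧
    conjCoeff n d (n - 2 * d) = 0 ∧
    ∀ (K : Type u) [Field K] [CharZero K] (V : Type v) [AddCommGroup V] [Module K V]
      (e : Module.Basis (Fin n) K V) (c : Finset (Fin n) → K), IsGeneric d c →
      1 ≤ tauCoeff n d (form e d c) (n - 2 * d) := by
  refine ⟨exists_generic n d, conj_eq_zero hd hn1 hne, ?_⟩
  intro K _ _ V _ _ e c hc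
  have hS : (block n 1 d (by omega) 0).card = d := block_card n 1 d (by omega) 0
  set S₀ := block n 1 d (by omega) 0 with hS₀
  have hc0 : c S₀ ≠ 0 := by
    have := hc.2.1 S₀ hS 0
    simpa using this
  have h1 := annCoeff_ge (e := e) (form_sq (e := e) hodd c) (by omega) hS hc0
  have h2 := idealCoeff_le e (form_mem (e := e) d c) (by omega : d ≤ n - 2 * d)
  have h3 : deltaCoeff n d (n - 2 * d) = (n.choose (n - 2 * d) : ℤ) - n.choose d := by
    unfold deltaCoeff
    rw [if_pos ⟨by omega, by omega⟩]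
    have e1 : n - 2 * d + d = n - d := by omega
    rw [e1, Nat.choose_symm (by omega : d ≤ n)]
  have h4 := ineq hd hn1 hn2
  have e2 : n - 2 * d - d = n - 3 * d := by omega
  rw [e2] at h2
  unfold tauCoeff
  rw [h3]
  have h5 : max (idealCoeff (form e d c) (n - 2 * d))
      ((n.choose (n - 2 * d) : ℤ) - n.choose d) ≤ (n.choose (n - 2 * d) : ℤ) - n.choose d := by
    refine max_le ?_ le_rfl
    refine h2.trans ?_
    have : ((n.choose (n - 3 * d) + n.choose d : ℕ) : ℤ) ≤ (n.choose (n - 2 * d) : ℕ) := by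
      exact_mod_cast h4
    push_cast at this
    linarith
  linarith

end Pool.Agent.Results.MP_071b90_al.OddForms
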